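import Pool.Agent.Helper54.DI.StmtsA

namespace Pool.Agent.Helper38.DI

open Finset Filter Topology Pool.Agent.Helper54.DI

/-- the inclusion of the polynomial ring in the variables of `J` -/
noncomputable def rn {d : ℕ} (J : Finset (Fin d)) : MvPolynomial J KK →ₐ[KK] MvPolynomial (Fin d) KK :=
  MvPolynomial.rename (fun j : J => (j : Fin d))

theorem rn_inj {d : ℕ} (J : Finset (Fin d)) : Function.Injective (rn J) :=
  MvPolynomial.rename_injective _ Subtype.val_injective

/-- `psub` as a ring homomorphism -/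
noncomputable def ph {d : ℕ} (J : Finset (Fin d)) (t : MvPolynomial (Fin d) KK) :
    Polynomial (MvPolynomial J KK) →+* MvPolynomial (Fin d) KK :=
  Polynomial.eval₂RingHom (rn J).toRingHom t

theorem psub_eq {d : ℕ} (J : Finset (Fin d)) (m : Polynomial (MvPolynomial J KK))
    (t : MvPolynomial (Fin d) KK) : psub J m t = ph J t m := rfl

/-- `pev` as a ring homomorphism -/
noncomputable def pvh {d : ℕ} (J : Finset (Fin d)) (u : J → ℝ) (y : ℝ) :
    Polynomial (MvPolynomial J KK) →+* ℝ :=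
  Polynomial.eval₂RingHom (MvPolynomial.aeval u : MvPolynomial J KK →ₐ[KK] ℝ).toRingHom y

theorem pev_eq {d : ℕ} (J : Finset (Fin d)) (m : Polynomial (MvPolynomial J KK))
    (u : J → ℝ) (y : ℝ) : pev J m u y = pvh J u y m := rfl

theorem ph_C {d : ℕ} (J : Finset (Fin d)) (t : MvPolynomial (Fin d) KK) (s : MvPolynomial J KK) :
    ph J t (Polynomial.C s) = rn J s := by
  simp [ph]

theorem pvh_C {d : ℕ} (J : Finset (Fin d)) (u : J → ℝ) (y : ℝ) (s : MvPolynomial J KK) :
    pvh J u y (Polynomial.C s) = MvPolynomial.aeval u s := by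
  simp [pvh]

theorem aeval_rn {d : ℕ} (J : Finset (Fin d)) (w : Fin d → ℝ) (s : MvPolynomial J KK) :
    MvPolynomial.aeval w (rn J s) = MvPolynomial.aeval (res J w) s := by
  rw [rn, MvPolynomial.aeval_rename]
  rfl

theorem aeval_ph {d : ℕ} (J : Finset (Fin d)) (t : MvPolynomial (Fin d) KK) (w : Fin d → ℝ)
    (q : Polynomial (MvPolynomial J KK)) :
    MvPolynomial.aeval w (ph J t q) = pvh J (res J w) (MvPolynomial.aeval w t) q := by
  have h : ((MvPolynomial.aeval w : MvPolynomial (Fin d) KK →ₐ[KK] ℝ).toRingHom).comp (ph J t) =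
      pvh J (res J w) (MvPolynomial.aeval w t) := by
    apply Polynomial.ringHom_ext
    · intro a
      have h1 := ph_C J t a
      have h2 := pvh_C J (res J w) (MvPolynomial.aeval w t) a
      have h3 := aeval_rn J w a
      rw [h2, RingHom.comp_apply, h1]
      exact h3
    · simp [ph, pvh]
  exact congrArg (fun f => f q) h

/-- the adjusted coordinate functions -/
noncomputable def rr {d : ℕ} {P : Ideal (MvPolynomial (Fin d) KK)} {J : Finset (Fin d)}
    (D : PrimData P J) (l : Fin d) : Polynomial (MvPolynomial J KK) :=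
  if h : l ∈ J then Polynomial.C (D.δ * MvPolynomial.X ⟨l, h⟩) else D.r l

theorem rr_mem {d : ℕ} {P : Ideal (MvPolynomial (Fin d) KK)} {J : Finset (Fin d)}
    (D : PrimData P J) (l : Fin d) :
    rn J D.δ * MvPolynomial.X l - ph J D.t (rr D l) ∈ P := by
  unfold rr
  split_ifs with h
  · have h1 : rn J D.δ * MvPolynomial.X l -
        ph J D.t (Polynomial.C (D.δ * MvPolynomial.X ⟨l, h⟩)) = 0 := by
      rw [ph_C, map_mul]
      have h2 : rn J (MvPolynomial.X ⟨l, h⟩) = MvPolynomial.X l := by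
        rw [rn, MvPolynomial.rename_X]
      rw [h2, sub_self]
    rw [h1]
    exact P.zero_mem
  · exact D.hr l

theorem rr_J {d : ℕ} {P : Ideal (MvPolynomial (Fin d) KK)} {J : Finset (Fin d)}
    (D : PrimData P J) (l : Fin d) (hl : l ∈ J) (u : J → ℝ) (y : ℝ) :
    pvh J u y (rr D l) = MvPolynomial.aeval u D.δ * u ⟨l, hl⟩ := by
  unfold rr
  rw [dif_pos hl, pvh_C, map_mul, MvPolynomial.aeval_X]

/-- homogenized substitution -/
theorem homog {d : ℕ} {P : Ideal (MvPolynomial (Fin d) KK)} {J : Finset (Fin d)}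
    (D : PrimData P J) (g : MvPolynomial (Fin d) KK) :
    ∃ (G : Polynomial (MvPolynomial J KK)) (N : ℕ),
      ph J D.t G - rn J D.δ ^ N * g ∈ P ∧
      ∀ (u : J → ℝ) (y : ℝ), MvPolynomial.aeval u D.δ ≠ 0 →
        pvh J u y G = MvPolynomial.aeval u D.δ ^ N *
          MvPolynomial.aeval (fun l => pvh J u y (rr D l) / MvPolynomial.aeval u D.δ) g := by
  induction g using MvPolynomial.induction_on with
  | C a =>
    refine ⟨Polynomial.C (MvPolynomial.C a), 0, ?_, ?_⟩
    · have h1 : ph J D.t (Polynomial.C (MvPolynomial.C a)) - rn J D.δ ^ 0 * MvPolynomial.C a = 0 := by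
        rw [ph_C]
        simp [rn]
      rw [h1]
      exact P.zero_mem
    · intro u y _
      rw [pvh_C]
      simp
  | add p q hp hq =>
    obtain ⟨G1, N1, h1, h1'⟩ := hp
    obtain ⟨G2, N2, h2, h2'⟩ := hq
    refine ⟨Polynomial.C (D.δ ^ N2) * G1 + Polynomial.C (D.δ ^ N1) * G2, N1 + N2, ?_, ?_⟩
    · have e : ph J D.t (Polynomial.C (D.δ ^ N2) * G1 + Polynomial.C (D.δ ^ N1) * G2) -
          rn J D.δ ^ (N1 + N2) * (p + q) =
          rn J D.δ ^ N2 * (ph J D.t G1 - rn J D.δ ^ N1 * p) +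
          rn J D.δ ^ N1 * (ph J D.t G2 - rn J D.δ ^ N2 * q) := by
        rw [map_add, map_mul, map_mul, ph_C, ph_C, map_pow, map_pow]
        ring
      rw [e]
      exact P.add_mem (P.mul_mem_left _ h1) (P.mul_mem_left _ h2)
    · intro u y hu
      rw [map_add, map_mul, map_mul, pvh_C, pvh_C, map_pow, map_pow, h1' u y hu, h2' u y hu,
        map_add]
      ring
  | mul_X p l hp =>
    obtain ⟨G1, N1, h1, h1'⟩ := hp
    refine ⟨G1 * rr D l, N1 + 1, ?_, ?_⟩
    · have e : ph J D.t (G1 * rr D l) - rn J D.δ ^ (N1 + 1) * (p * MvPolynomial.X l) =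
          ph J D.t (rr D l) * (ph J D.t G1 - rn J D.δ ^ N1 * p) -
          rn J D.δ ^ N1 * p * (rn J D.δ * MvPolynomial.X l - ph J D.t (rr D l)) := by
        rw [map_mul]
        ring
      rw [e]
      exact P.sub_mem (P.mul_mem_left _ h1) (P.mul_mem_left _ (rr_mem D l))
    · intro u y hu
      rw [map_mul, map_mul, h1' u y hu, MvPolynomial.aeval_X]
      field_simp
      ring

/-- a polynomial that vanishes near a point is zero -/
theorem zero_of_ev {σ : Type} [Fintype σ] (w : σ → ℝ) (s : MvPolynomial σ KK)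
    (h : ∀ᶠ x in 𝓝 w, MvPolynomial.aeval x s = 0) : s = 0 := by
  obtain ⟨ε, hε, hb⟩ := Metric.eventually_nhds_iff.mp h
  have hinj : Function.Injective (MvPolynomial.map (σ := σ) (algebraMap KK ℝ)) :=
    MvPolynomial.map_injective _ (algebraMap KK ℝ).injective
  apply hinj
  rw [map_zero]
  apply MvPolynomial.funext_set (fun i => Set.Ioo (w i - ε) (w i + ε))
  · intro i
    exact Set.Ioo_infinite (by linarith)
  · intro x hx
    rw [map_zero, MvPolynomial.eval_map, ← MvPolynomial.aeval_def]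
    apply hb
    rw [dist_pi_lt_iff hε]
    intro i
    have := hx i (Set.mem_univ i)
    rw [Real.dist_eq, abs_lt]
    constructor <;> linarith [this.1, this.2]

theorem contDiff_aeval {σ : Type} [Fintype σ] (s : MvPolynomial σ KK) :
    ContDiff ℝ 3 (fun x : σ → ℝ => MvPolynomial.aeval x s) := by
  induction s using MvPolynomial.induction_on with
  | C a =>
    simp only [MvPolynomial.aeval_C]
    exact contDiff_const
  | add p q hp hq =>
    simp only [map_add]
    exact hp.add hq
  | mul_X p l hp =>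
    simp only [map_mul, MvPolynomial.aeval_X]
    exact hp.mul (contDiff_apply ℝ ℝ l)

theorem contDiff_pvh {d : ℕ} (J : Finset (Fin d)) (m : Polynomial (MvPolynomial J KK)) :
    ContDiff ℝ 3 (fun v : (J → ℝ) × ℝ => pvh J v.1 v.2 m) := by
  induction m using Polynomial.induction_on with
  | C a =>
    simp only [pvh_C]
    exact (contDiff_aeval a).comp contDiff_fst
  | add p q hp hq =>
    simp only [map_add]
    exact hp.add hq
  | monomial n a hp =>
    have e : (fun v : (J → ℝ) × ℝ => pvh J v.1 v.2 (Polynomial.C a * Polynomial.X ^ (n + 1))) =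
        fun v => pvh J v.1 v.2 (Polynomial.C a * Polynomial.X ^ n) * v.2 := by
      funext v
      rw [pow_succ, ← mul_assoc, map_mul _ _ Polynomial.X]
      congr 1
      simp [pvh]
    rw [e]
    exact hp.mul contDiff_snd

/-- derivative in the last variable -/
theorem deriv_pvh {d : ℕ} (J : Finset (Fin d)) (m : Polynomial (MvPolynomial J KK)) (u : J → ℝ)
    (y : ℝ) : HasDerivAt (fun y => pvh J u y m) (pvh J u y (Polynomial.derivative m)) y := by
  have h := (m.map (MvPolynomial.aeval u : MvPolynomial J KK →ₐ[KK] ℝ).toRingHom).hasDerivAt y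
  have e1 : ∀ (q : Polynomial (MvPolynomial J KK)) (z : ℝ), pvh J u z q =
      (q.map (MvPolynomial.aeval u : MvPolynomial J KK →ₐ[KK] ℝ).toRingHom).eval z := by
    intro q z
    rw [Polynomial.eval_map]
    rfl
  rw [e1, ← Polynomial.derivative_map]
  have e2 : (fun y => pvh J u y m) = fun y =>
      (m.map (MvPolynomial.aeval u : MvPolynomial J KK →ₐ[KK] ℝ).toRingHom).eval y := by
    funext z
    exact e1 m z
  rw [e2]
  exact h

/-- vanishing on generators -/
theorem vanish {d : ℕ} (x : Fin d → ℝ) (S : Set (MvPolynomial (Fin d) KK))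
    (h : ∀ g ∈ S, MvPolynomial.aeval x g = 0) (g : MvPolynomial (Fin d) KK)
    (hg : g ∈ Ideal.span S) : MvPolynomial.aeval x g = 0 := by
  have h1 : Ideal.span S ≤ RingHom.ker
      ((MvPolynomial.aeval x : MvPolynomial (Fin d) KK →ₐ[KK] ℝ).toRingHom) := by
    rw [Ideal.span_le]
    intro g hg
    exact (RingHom.mem_ker).mpr (h g hg)
  exact (RingHom.mem_ker).mp (h1 hg)

theorem mem_KK (u : ℝ) (q : Polynomial KK) (hq : q ≠ 0) (h : Polynomial.aeval u q = 0) :
    u ∈ KK := by
  rw [mem_algebraicClosure_iff]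
  have h1 : IsAlgebraic KK u := ⟨q, hq, h⟩
  have : Algebra.IsAlgebraic ℚ KK := algebraicClosure.isAlgebraic ℚ ℝ
  exact h1.restrictScalars ℚ

theorem aeval_KK {σ : Type} (x : σ → KK) (s : MvPolynomial σ KK) :
    MvPolynomial.aeval (fun i => (x i : ℝ)) s = ((MvPolynomial.aeval x s : KK) : ℝ) := by
  induction s using MvPolynomial.induction_on with
  | C a => simp
  | add p q hp hq => simp only [map_add, hp, hq]; rfl
  | mul_X p l hp => simp only [map_mul, MvPolynomial.aeval_X, hp]; rfl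

/-- values at algebraic points -/
theorem pvh_KK {d : ℕ} (J : Finset (Fin d)) (x : J → KK) (y : ℝ)
    (q : Polynomial (MvPolynomial J KK)) :
    pvh J (fun i => (x i : ℝ)) y q = Polynomial.aeval y
      (q.map (MvPolynomial.aeval x : MvPolynomial J KK →ₐ[KK] KK).toRingHom) := by
  induction q using Polynomial.induction_on with
  | C a =>
    rw [pvh_C, Polynomial.map_C, Polynomial.aeval_C, aeval_KK]
    rfl
  | add p q hp hq => rw [map_add, hp, hq, Polynomial.map_add, map_add]
  | monomial n a hp =>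
    have e : pvh J (fun i => (x i : ℝ)) y (Polynomial.C a * Polynomial.X ^ (n + 1)) =
        pvh J (fun i => (x i : ℝ)) y (Polynomial.C a * Polynomial.X ^ n) * y := by
      rw [pow_succ, ← mul_assoc, map_mul _ _ Polynomial.X]
      congr 1
      simp [pvh]
    rw [e, hp, pow_succ, ← mul_assoc, Polynomial.map_mul _ (q := Polynomial.X),
      Polynomial.map_X, map_mul _ _ Polynomial.X, Polynomial.aeval_X]

theorem pvh_mem_KK {d : ℕ} (J : Finset (Fin d)) (x : J → KK) (y : KK)
    (q : Polynomial (MvPolynomial J KK)) :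
    pvh J (fun i => (x i : ℝ)) (y : ℝ) q ∈ KK := by
  rw [pvh_KK]
  have h := Polynomial.aeval_algebraMap_apply ℝ y
    (q.map (MvPolynomial.aeval x : MvPolynomial J KK →ₐ[KK] KK).toRingHom)
  have e : (algebraMap KK ℝ) y = (y : ℝ) := rfl
  rw [e] at h
  rw [h]
  exact SetLike.coe_mem _

/-- the implicit function -/
theorem impl {d : ℕ} (J : Finset (Fin d)) (m : Polynomial (MvPolynomial J KK)) (u0 : J → ℝ)
    (y0 : ℝ) (h0 : pvh J u0 y0 m = 0) (h1 : pvh J u0 y0 (Polynomial.derivative m) ≠ 0) :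
    ∃ η : (J → ℝ) → ℝ, ContDiffAt ℝ 3 η u0 ∧ η u0 = y0 ∧
      (∀ᶠ u in 𝓝 u0, pvh J u (η u) m = 0) ∧
      ∀ᶠ v in 𝓝 (u0, y0), pvh J v.1 v.2 m = 0 → η v.1 = v.2 := by
  have cdf : ContDiffAt ℝ 3 (fun v : (J → ℝ) × ℝ => pvh J v.1 v.2 m) (u0, y0) :=
    (contDiff_pvh J m).contDiffAt
  have pn : (3 : WithTop ℕ∞) ≠ 0 := by simp
  have hd : HasFDerivAt (fun v : (J → ℝ) × ℝ => pvh J v.1 v.2 m)
      (fderiv ℝ (fun v : (J → ℝ) × ℝ => pvh J v.1 v.2 m) (u0, y0)) (u0, y0) :=
    (cdf.differentiableAt pn).hasFDerivAt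
  have hc : HasFDerivAt (fun y : ℝ => pvh J u0 y m)
      ((fderiv ℝ (fun v : (J → ℝ) × ℝ => pvh J v.1 v.2 m) (u0, y0)).comp
        (ContinuousLinearMap.inr ℝ (J → ℝ) ℝ)) y0 := by
    have := hd.comp y0 (hasFDerivAt_prodMk_right u0 y0)
    exact this
  have hv := hc.hasDerivAt.unique (deriv_pvh J m u0 y0)
  have if2 : ((fderiv ℝ (fun v : (J → ℝ) × ℝ => pvh J v.1 v.2 m) (u0, y0)).comp
        (ContinuousLinearMap.inr ℝ (J → ℝ) ℝ)).IsInvertible := by
    refine ⟨ContinuousLinearEquiv.unitsEquivAut ℝ (Units.mk0 _ h1), ?_⟩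
    ext
    rw [hv]
    simp
  refine ⟨cdf.implicitFunction pn if2, cdf.contDiffAt_implicitFunction pn if2,
    cdf.implicitFunction_apply_self pn if2, ?_, ?_⟩
  · filter_upwards [cdf.eventually_apply_implicitFunction pn if2] with u hu
    rw [← h0]
    exact hu
  · filter_upwards [cdf.eventually_apply_eq_iff_implicitFunction pn if2] with v hv' hz
    exact hv'.mp (by simp only [hz, h0])

theorem ev_res {d : ℕ} (J : Finset (Fin d)) (w : Fin d → ℝ) (p : (J → ℝ) → Prop)
    (h : ∀ᶠ u in 𝓝 (res J w), p u) : ∀ᶠ x in 𝓝 w, p (res J x) := by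
  have hc : Continuous (fun x : Fin d → ℝ => res J x) :=
    continuous_pi fun j => continuous_apply (j : Fin d)
  exact hc.continuousAt.eventually h

theorem contDiff_res {d : ℕ} (J : Finset (Fin d)) :
    ContDiff ℝ 3 (fun x : Fin d → ℝ => res J x) :=
  contDiff_pi.mpr fun j => contDiff_apply ℝ ℝ (j : Fin d)

theorem cd_eta {d : ℕ} (J : Finset (Fin d)) (w : Fin d → ℝ) (η : (J → ℝ) → ℝ)
    (h : ContDiffAt ℝ 3 η (res J w)) : ContDiffAt ℝ 3 (fun x : Fin d → ℝ => η (res J x)) w :=
  ContDiffAt.comp (g := η) (f := fun x : Fin d → ℝ => res J x) w h (contDiff_res J).contDiffAt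

theorem cd_pair {d : ℕ} (J : Finset (Fin d)) (w : Fin d → ℝ) (g : (Fin d → ℝ) → ℝ)
    (h : ContDiffAt ℝ 3 g w) (q : Polynomial (MvPolynomial J KK)) :
    ContDiffAt ℝ 3 (fun x : Fin d → ℝ => pvh J (res J x) (g x) q) w := by
  have h1 : ContDiffAt ℝ 3 (fun x : Fin d → ℝ => ((res J x, g x) : (J → ℝ) × ℝ)) w :=
    (contDiff_res J).contDiffAt.prodMk h
  obtain ⟨Φ, hΦ⟩ : ∃ Φ : (J → ℝ) × ℝ → ℝ, Φ = fun v => pvh J v.1 v.2 q := ⟨_, rfl⟩
  have h2 : ContDiffAt ℝ 3 Φ (res J w, g w) := by
    rw [hΦ]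
    exact (contDiff_pvh J q).contDiffAt
  have h3 := ContDiffAt.comp (g := Φ)
    (f := fun x : Fin d → ℝ => ((res J x, g x) : (J → ℝ) × ℝ)) w h2 h1
  have e : (fun x : Fin d → ℝ => pvh J (res J x) (g x) q) =
      Φ ∘ fun x : Fin d → ℝ => ((res J x, g x) : (J → ℝ) × ℝ) := by
    rw [hΦ]
    rfl
  rw [e]
  exact h3

theorem cd_res {d : ℕ} (J : Finset (Fin d)) (w : Fin d → ℝ) (s : MvPolynomial J KK) :
    ContDiffAt ℝ 3 (fun x : Fin d → ℝ => MvPolynomial.aeval (res J x) s) w := by
  have e : (fun x : Fin d → ℝ => MvPolynomial.aeval (res J x) s) =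
      fun x => MvPolynomial.aeval x (rn J s) := by
    funext x
    rw [aeval_rn]
  rw [e]
  exact (contDiff_aeval _).contDiffAt

theorem Z2B : ST_Z2B := by
  classical
  intro d P hP J ⟨D⟩
  -- generators
  obtain ⟨S, hS⟩ : P.FG := IsNoetherian.noetherian P
  choose G N hG hG' using homog D
  have hGm : ∀ g ∈ P, ∃ (s : MvPolynomial J KK) (q' : Polynomial (MvPolynomial J KK)), s ≠ 0 ∧
      Polynomial.C s * G g = D.m * q' := by
    intro g hg
    apply D.div
    rw [psub_eq]
    have h1 := P.add_mem (hG g) (P.mul_mem_left (rn J D.δ ^ N g) hg)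
    rwa [sub_add_cancel] at h1
  have hGs : ∀ g : MvPolynomial (Fin d) KK, ∃ (s : MvPolynomial J KK)
      (q' : Polynomial (MvPolynomial J KK)), s ≠ 0 ∧ (g ∈ P → Polynomial.C s * G g = D.m * q') := by
    intro g
    by_cases hg : g ∈ P
    · obtain ⟨s, q', h1, h2⟩ := hGm g hg
      exact ⟨s, q', h1, fun _ => h2⟩
    · exact ⟨1, 0, one_ne_zero, fun h => absurd h hg⟩
  choose s q' hs hsq using hGs
  have hδP : rn J D.δ ∉ P := D.indep D.δ D.δ0
  obtain ⟨h, hh⟩ : ∃ h, h = rn J D.δ * (ph J D.t (Polynomial.derivative D.m) *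
    ∏ g ∈ S, rn J (s g)) := ⟨_, rfl⟩
  refine ⟨h, ?_, ?_⟩
  · intro hc
    rw [hh] at hc
    rcases hP.mem_or_mem hc with h1 | h1
    · exact hδP h1
    rcases hP.mem_or_mem h1 with h2 | h2
    · exact D.hm' h2
    · obtain ⟨g, _, hg⟩ := (hP.prod_mem_iff).mp h2
      exact D.indep (s g) (hs g) hg
  intro w hw hhw
  rw [hh, map_mul, map_mul, map_prod] at hhw
  have w1 : MvPolynomial.aeval (res J w) D.δ ≠ 0 := by
    rw [← aeval_rn]
    exact left_ne_zero_of_mul hhw
  have w2 : pvh J (res J w) (MvPolynomial.aeval w D.t) (Polynomial.derivative D.m) ≠ 0 := by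
    rw [← aeval_ph]
    exact left_ne_zero_of_mul (right_ne_zero_of_mul hhw)
  have w3 : ∀ g ∈ S, MvPolynomial.aeval (res J w) (s g) ≠ 0 := by
    intro g hg
    rw [← aeval_rn]
    exact (Finset.prod_ne_zero_iff.mp (right_ne_zero_of_mul (right_ne_zero_of_mul hhw))) g hg
  have w0 : pvh J (res J w) (MvPolynomial.aeval w D.t) D.m = 0 := by
    rw [← aeval_ph]
    exact hw _ D.hm
  obtain ⟨η, hη3, hη0, hηz, hηu⟩ := impl J D.m (res J w) (MvPolynomial.aeval w D.t) w0 w2
  -- the map
  obtain ⟨F, hF⟩ : ∃ F : (Fin d → ℝ) → (Fin d → ℝ), F = fun x l => if l ∈ J then x l else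
    pvh J (res J x) (η (res J x)) (rr D l) / MvPolynomial.aeval (res J x) D.δ := ⟨_, rfl⟩
  -- consequences near w
  have e1 : ∀ᶠ x in 𝓝 w, MvPolynomial.aeval (res J x) D.δ ≠ 0 := by
    apply ev_res J w (fun u => MvPolynomial.aeval u D.δ ≠ 0)
    exact (contDiff_aeval D.δ).continuous.continuousAt.eventually_ne w1
  have e2 : ∀ᶠ x in 𝓝 w, ∀ g ∈ S, MvPolynomial.aeval (res J x) (s g) ≠ 0 := by
    rw [Finset.eventually_all]
    intro g hg
    apply ev_res J w (fun u => MvPolynomial.aeval u (s g) ≠ 0)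
    exact (contDiff_aeval (s g)).continuous.continuousAt.eventually_ne (w3 g hg)
  have e3 : ∀ᶠ x in 𝓝 w, pvh J (res J x) (η (res J x)) D.m = 0 :=
    ev_res J w (fun u => pvh J u (η u) D.m = 0) hηz
  have e4 : ∀ᶠ x in 𝓝 w, pvh J (res J x) (MvPolynomial.aeval x D.t) D.m = 0 →
      η (res J x) = MvPolynomial.aeval x D.t := by
    have hc : ContinuousAt (fun x : Fin d → ℝ => (res J x, MvPolynomial.aeval x D.t)) w :=
      ((contDiff_res J).continuous.prodMk (contDiff_aeval D.t).continuous).continuousAt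
    exact hc.eventually hηu
  have e5 : ∀ᶠ x in 𝓝 w, pvh J (res J x) (η (res J x)) (Polynomial.derivative D.m) ≠ 0 := by
    apply ev_res J w (fun u => pvh J u (η u) (Polynomial.derivative D.m) ≠ 0)
    have hc : ContinuousAt (fun u : J → ℝ => pvh J u (η u) (Polynomial.derivative D.m))
        (res J w) := by
      have h1 : ContinuousAt (fun v : (J → ℝ) × ℝ => pvh J v.1 v.2 (Polynomial.derivative D.m))
          (res J w, η (res J w)) := (contDiff_pvh J _).continuous.continuousAt
      exact ContinuousAt.comp (f := fun u => (u, η u)) h1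
        (continuousAt_id.prodMk hη3.continuousAt)
    apply hc.eventually_ne
    rw [hη0]
    exact w2
  -- relation on the zero set
  have key : ∀ x : Fin d → ℝ, MvPolynomial.aeval (res J x) D.δ ≠ 0 →
      (∀ g ∈ P, MvPolynomial.aeval x g = 0) → η (res J x) = MvPolynomial.aeval x D.t →
      ∀ l, x l = pvh J (res J x) (η (res J x)) (rr D l) / MvPolynomial.aeval (res J x) D.δ := by
    intro x hx1 hx2 hx3 l
    have h1 := hx2 _ (rr_mem D l)
    rw [map_sub, map_mul, aeval_rn, aeval_ph, MvPolynomial.aeval_X, ← hx3] at h1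
    rw [eq_div_iff hx1]
    linarith [h1]
  -- values of F in a uniform form
  have hFl : ∀ x : Fin d → ℝ, MvPolynomial.aeval (res J x) D.δ ≠ 0 → ∀ l, F x l =
      pvh J (res J x) (η (res J x)) (rr D l) / MvPolynomial.aeval (res J x) D.δ := by
    intro x hx l
    rw [hF]
    by_cases hl : l ∈ J
    · simp only [hl, if_true]
      rw [rr_J D l hl, mul_div_cancel_left₀ _ hx]
      rfl
    · simp only [hl, if_false]
  have hFe : ∀ x : Fin d → ℝ, MvPolynomial.aeval (res J x) D.δ ≠ 0 →
      ∀ g, pvh J (res J x) (η (res J x)) (G g) =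
        MvPolynomial.aeval (res J x) D.δ ^ N g * MvPolynomial.aeval (F x) g := by
    intro x hx g
    have h1 := hG' g (res J x) (η (res J x)) hx
    rw [h1]
    congr 2
    congr 1
    funext l
    exact (hFl x hx l).symm
  refine ⟨F, ?_, ?_, ?_, ?_, ?_, ?_, ?_⟩
  · -- smooth
    rw [hF]
    rw [contDiffAt_pi]
    intro l
    by_cases hl : l ∈ J
    · simp only [hl, if_true]
      exact (contDiff_apply ℝ ℝ l).contDiffAt
    · simp only [hl, if_false]
      have h1 := cd_pair J w (fun x => η (res J x)) (cd_eta J w η hη3) (rr D l)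
      have h2 := cd_res J w D.δ
      exact h1.div h2 w1
  · -- fix
    funext l
    rw [hFl w w1 l]
    exact (key w w1 hw hη0 l).symm
  · -- dep
    intro x y hxy
    have hr : res J x = res J y := by
      funext j
      exact hxy j j.2
    rw [hF]
    funext l
    by_cases hl : l ∈ J
    · simp only [hl, if_true]
      exact hxy l hl
    · simp only [hl, if_false, hr]
  · -- idJ
    intro x j hj
    rw [hF]
    simp only [hj, if_true]
  · -- zero
    filter_upwards [e1, e2, e3, e4] with x hx1 hx2 hx3 hx4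
    constructor
    · intro hv
      have h0 : pvh J (res J x) (MvPolynomial.aeval x D.t) D.m = 0 := by
        rw [← aeval_ph]
        exact hv _ D.hm
      funext l
      rw [hFl x hx1 l]
      exact (key x hx1 hv (hx4 h0) l).symm
    · intro hfx g hg
      apply vanish x (S : Set (MvPolynomial (Fin d) KK)) _ g
      · rw [hS]
        exact hg
      intro g' hg'
      have hgP : g' ∈ P := by
        rw [← hS]
        exact Ideal.subset_span hg'
      have h1 := hFe x hx1 g'
      rw [hfx] at h1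
      have h2 := congrArg (pvh J (res J x) (η (res J x))) (hsq g' hgP)
      rw [map_mul, map_mul, pvh_C, hx3, zero_mul, h1] at h2
      rcases mul_eq_zero.mp h2 with h3 | h3
      · exact absurd h3 (hx2 g' hg')
      · rcases mul_eq_zero.mp h3 with h4 | h4
        · exact absurd h4 (pow_ne_zero _ hx1)
        · exact h4
  · -- dense
    intro g hg
    by_contra hgP
    have h1 : ph J D.t (G g) ∉ P := by
      intro hc
      have h2 := P.sub_mem hc (hG g)
      rw [sub_sub_cancel] at h2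
      rcases hP.mem_or_mem h2 with h3 | h3
      · exact hδP (hP.mem_of_pow_mem _ h3)
      · exact hgP h3
    obtain ⟨c, α, β, hc0, hab⟩ := D.bez (G g) h1
    have h2 : ∀ᶠ x in 𝓝 w, MvPolynomial.aeval x (rn J c) = 0 := by
      filter_upwards [e1, e3, hg] with x hx1 hx3 hx
      rw [aeval_rn]
      have h3 := congrArg (pvh J (res J x) (η (res J x))) hab
      rw [map_add, map_mul, map_mul, pvh_C, hx3, hFe x hx1 g, hx] at h3
      rw [← h3]
      ring
    have h3 := zero_of_ev w (rn J c) h2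
    exact hc0 (rn_inj J (by rw [h3, map_zero]))
  · -- alg
    filter_upwards [e1, e3, e5] with x hx1 hx3 hx5 hxK l
    have hηK : η (res J x) ∈ KK := by
      have hr : res J x = fun i : J => (((⟨x i, hxK i⟩ : KK)) : ℝ) := rfl
      rw [hr] at hx3 hx5
      rw [hr]
      rw [pvh_KK] at hx3 hx5
      apply mem_KK _ _ _ hx3
      intro h0
      rw [← Polynomial.derivative_map, h0] at hx5
      simp at hx5
    rw [hFl x hx1 l]
    have hr : res J x = fun i : J => (((⟨x i, hxK i⟩ : KK)) : ℝ) := rfl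
    apply div_mem
    · have h1 := pvh_mem_KK J (fun i : J => (⟨x i, hxK i⟩ : KK)) ⟨η (res J x), hηK⟩ (rr D l)
      exact h1
    · rw [hr, aeval_KK]
      exact SetLike.coe_mem _

end Pool.Agent.Helper38.DI
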